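import Pool.Agent.Helper45.U4.St1

/-!
# Project U4 (MP_a1f43d_co), module RFO: the formulas in rank four
-/

set_option autoImplicit false

open Module Classical
open scoped LinearAlgebra.Projectivization

namespace Pool.Agent.Helper6.U4

open Pool.Agent.Helper45.U4 Pool.Agent.Helper53.PB

theorem geo41 : geo 4 1 = 1 := geo_one 4

theorem geo42 : geo 4 2 = 5 := geo_two 4

theorem geo43 : geo 4 3 = 21 := by
  rw [geo_succ, geo42]

theorem geo44 : geo 4 4 = 85 := by
  rw [geo_succ, geo43]

/-- sums of `tf f (N p) - 1` -/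
theorem sum_sub_one {ι : Type} (s : Finset ι) (g : ι → ℤ) (c : ℕ) (hc : s.card = c) :
    ∑ p ∈ s, (g p - 1) = ∑ p ∈ s, g p - (c : ℤ) := by
  rw [Finset.sum_sub_distrib, Finset.sum_const, hc, nsmul_eq_mul, mul_one]

theorem hRFO (h1 : StSUM) (h2 : StDCT) : StRFO := by
  intro F V _ _ _ _ _ _ φ f hφ hf
  refine ⟨?_, ?_⟩
  · intro U hU N
    have hd : finrank F U = 4 := hφ.gen U hU
    obtain ⟨a1, a2, a3⟩ := h1 φ.toPolar U N f hφ.card hU.1 hf
    refine ⟨?_, ?_, ?_⟩
    · obtain ⟨b1, b2⟩ := a1 3 hd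
      have e2 : Fintype.card (Bool × ℙ F (Dual F U)) = 170 := by
        rw [b2, geo44]
      refine ⟨?_, e2⟩
      rw [sum_sub_one Finset.univ _ 170 (by rw [Finset.card_univ]; exact e2)]
      rw [geo43] at b1
      push_cast at b1 ⊢
      linarith
    · intro X hX
      obtain ⟨b1, b2⟩ := a2 2 hd X hX
      have e2 : (Finset.univ.filter (fun p => X.rep ∈ N.nb p)).card = 42 := by
        rw [b2, geo43]
      refine ⟨?_, e2⟩
      rw [sum_sub_one _ _ 42 e2]
      rw [geo42] at b1
      unfold s4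
      push_cast at b1 ⊢
      linarith
    · intro L hL hdL
      obtain ⟨b1, b2⟩ := a3 1 hd L hL hdL
      have e2 : (Finset.univ.filter (fun p => L ≤ N.nb p)).card = 10 := by
        rw [b2, geo42]
      refine ⟨?_, e2⟩
      rw [sum_sub_one _ _ 10 e2]
      rw [geo41] at b1
      push_cast at b1 ⊢
      linarith
  · intro L hL
    have h3 := h2 φ.toPolar f L 1 hφ.card hL
    rw [geo41] at h3
    have h4 : (pts L).card = 5 := by
      rw [card_pts, hφ.card, hL, geo42]
    have h5 : ∑ X ∈ pts L, s4 φ.toPolar f X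
        = ∑ X ∈ pts L, nf φ.toPolar f X - 33 * 5 + 32 * tf f L := by
      unfold s4 tf
      rw [Finset.sum_add_distrib, Finset.sum_sub_distrib, Finset.sum_const, h4, Finset.mul_sum]
      norm_num
    rw [h5, h3]
    push_cast
    ring

end Pool.Agent.Helper6.U4
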